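import Pool.Agent.H61.HB.Stmts3

/-!
# Row HMC of the board `hbg`: small fluctuation in `H^(-1)`
-/

set_option autoImplicit false

namespace HB

namespace HMC

/-- the constant field with the mean of `v₀` -/
def cst (v₀ : V) : V := fun j k => if k = 0 then v₀ j 0 else 0

theorem sq_zero : sq (0 : Z2) = 0 := by simp [sq]

theorem cst_ne (v₀ : V) (j : Fin 2) (k : Z2) (hk : k ≠ 0) : cst v₀ j k = 0 := if_neg hk

theorem cst_zero (v₀ : V) (j : Fin 2) : cst v₀ j 0 = v₀ j 0 := if_pos rfl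

theorem mem_cst (s : ℝ) (v₀ : V) : Mem s (cst v₀) := by
  intro j
  refine summable_of_ne_finset_zero (s := {0}) fun k hk => ?_
  rw [Finset.mem_singleton] at hk
  rw [cst_ne v₀ j k hk]
  simp

theorem nsq_self (s : ℝ) (u : V) : nsq s (u - u) = 0 := by
  unfold nsq nqS
  refine Finset.sum_eq_zero fun j _ => ?_
  rw [sub_self]
  simp

theorem adv_cst (v₀ : V) (j : Fin 2) (k : Z2) : adv (cst v₀) (cst v₀) j k = 0 := by
  unfold adv dot
  rw [← tsum_zero (α := ℂ) (β := Z2)]
  refine tsum_congr fun l => ?_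
  unfold trm
  refine Finset.sum_eq_zero fun i _ => ?_
  by_cases h : k - l = 0
  · rw [h]
    simp [co]
  · rw [cst_ne v₀ j (k - l) h, mul_zero]

theorem sol_cst (ν s T : ℝ) (v₀ : V) : Sol ν s T (fun _ => cst v₀) where
  cts := by
    refine ⟨fun t _ => mem_cst s v₀, fun t _ => ?_⟩
    simp only [nsq_self]
    exact tendsto_const_nhds
  eqn := by
    intro j k t _
    have h : (-((ν * sq k ^ 2 : ℝ) : ℂ) * cst v₀ j k - adv (cst v₀) (cst v₀) j k) = 0 := by
      rw [adv_cst, sub_zero]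
      by_cases hk : k = 0
      · rw [hk, sq_zero]
        simp
      · rw [cst_ne v₀ j k hk, mul_zero]
    show HasDerivWithinAt (fun _ => cst v₀ j k)
      (-((ν * sq k ^ 2 : ℝ) : ℂ) * cst v₀ j k - adv (cst v₀) (cst v₀) j k) (Set.Icc 0 T) t
    rw [h]
    exact hasDerivWithinAt_const _ _ _

theorem rl_cst (v₀ : V) (h : Rl v₀) : Rl (cst v₀) := by
  intro j k
  by_cases hk : k = 0
  · have h1 := h j 0
    rw [neg_zero] at h1
    rw [hk, neg_zero, cst_zero]
    exact h1
  · rw [cst_ne v₀ j k hk, cst_ne v₀ j (-k) (neg_ne_zero.2 hk), map_zero]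

theorem flu_cst (v₀ : V) : flu (cst v₀) = 0 := by
  unfold flu flS
  refine Finset.sum_eq_zero fun j _ => ?_
  have h : ∀ k : Z2, ‖off (cst v₀ j) k‖ ^ 2 = 0 := by
    intro k
    unfold off
    by_cases hk : k = 0
    · rw [if_pos hk]
      simp
    · rw [if_neg hk, cst_ne v₀ j k hk]
      simp
  simp only [h, tsum_zero]

theorem grd_cst (v₀ : V) : grd (cst v₀) = 0 := by
  unfold grd grS
  refine Finset.sum_eq_zero fun j _ => ?_
  have h : ∀ k : Z2, sq k * ‖cst v₀ j k‖ ^ 2 = 0 := by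
    intro k
    by_cases hk : k = 0
    · rw [hk, sq_zero, zero_mul]
    · rw [cst_ne v₀ j k hk]
      simp
  simp only [h, tsum_zero]

theorem mu_cst (v₀ : V) : mu (v₀ - cst v₀) = 0 := by
  unfold mu
  refine Finset.sum_eq_zero fun j _ => ?_
  rw [Pi.sub_apply, Pi.sub_apply, cst_zero, sub_self]
  simp

theorem hm_cst (v₀ : V) : hm (v₀ - cst v₀) = hm v₀ := by
  unfold hm hmS
  refine Finset.sum_congr rfl fun j _ => tsum_congr fun k => ?_
  have h : off ((v₀ - cst v₀) j) k = off (v₀ j) k := by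
    unfold off
    by_cases hk : k = 0
    · rw [if_pos hk, if_pos hk]
    · rw [if_neg hk, if_neg hk, Pi.sub_apply, Pi.sub_apply, cst_ne v₀ j k hk, sub_zero]
  rw [h]

end HMC

open HMC in
theorem hmc_thm (hCRB : CRBStmt) : HMCStmt := by
  obtain ⟨C, c, hC, hc, hS⟩ := hCRB
  refine ⟨c, hc, fun ν s v₀ hν hs hmem hreal hsm => ?_⟩
  refine hS ν s 0 (fun _ => cst v₀) v₀ hν hs le_rfl
    (fun T _ => ⟨sol_cst ν s T v₀, fun t _ => rl_cst v₀ hreal⟩) (fun T _ => ?_) hmem hreal ?_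
  · simp only [flu_cst, grd_cst]
    simp
  · simp only [hm_cst, mu_cst]
    rw [mul_zero, Real.exp_zero, mul_one, add_zero]
    exact hsm

end HB
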