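import Pool.Agent.H61.HB.Stmts4

/-!
Row RSB of the board `fnd` (the residual of the approximate solution)
-/

set_option autoImplicit false

namespace HB

theorem rsb_scal (s : ℝ) (c : ℂ) (u : V) :
    nsq s (fun j k => c * u j k) = ‖c‖ ^ 2 * nsq s u := by
  unfold nsq nqS
  rw [Finset.mul_sum]
  refine Finset.sum_congr rfl fun j _ => ?_
  rw [← tsum_mul_left]
  refine tsum_congr fun k => ?_
  rw [norm_mul, mul_pow]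
  ring

theorem rsb_fs_scal (M : ℝ) (c : Z2 → ℂ) (u : V) (h : Fs M u) :
    Fs M (fun j k => c k * u j k) := by
  intro j k hk
  change c k * u j k = 0
  rw [h j k hk, mul_zero]

theorem rsb_car (N : ℤ) (i : Fin 4) : sq (car N i) = (N : ℝ) ^ 2 := by
  fin_cases i <;> simp [car, dir, sgn, sq]

theorem rsb_thm (h1 : ABLStmt) (h2 : DLWStmt) (h3 : CROStmt) (h4 : OSBStmt) (h5 : FSBStmt)
    (h6 : MMBStmt) : RSBStmt := by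
  intro ν M p hM hp
  obtain ⟨K2, N2, hK2, hD⟩ := h2 ν M p hM hp
  obtain ⟨K3, N3, hK3, hC⟩ := h3 ν M p hM hp
  obtain ⟨K4, N4, hK4, hO⟩ := h4 ν M p hM hp
  obtain ⟨hfin, hMem, hadd, hadv, hmono, hpro, hsh⟩ := h5
  obtain ⟨-, -, -, hnn, -, hsum⟩ := h6
  set P2 : V := fun j k => ((sq k ^ 2 : ℝ) : ℂ) * p j k with hP2
  have hK1 : 0 ≤ nsq (-1) P2 := hnn _ _
  have hK0 : 0 ≤ nsq (-1) (adv p p) := hnn _ _
  set K1 := nsq (-1) P2 with hK1d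
  set K0 := nsq (-1) (adv p p) with hK0d
  refine ⟨√(16 * (ν ^ 2 * K1 + ν ^ 2 * K2 + K0 + K3 + K4)), max N2 (max N3 N4),
    Real.sqrt_nonneg _, ?_⟩
  intro n hn hn1 θ hθ0 hθ1
  have hx : (1 : ℝ) ≤ (n : ℝ) := by exact_mod_cast hn1
  have hnn2 : n ≤ n ^ 2 := by nlinarith
  have hN1 : 1 ≤ n ^ 2 := le_trans hn1 hnn2
  have hN2 : N2 ≤ n ^ 2 := le_trans (le_trans (le_max_left _ _) hn) hnn2
  have hN3 : N3 ≤ n ^ 2 :=
    le_trans (le_trans (le_trans (le_max_left _ _) (le_max_right _ _)) hn) hnn2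
  have hN4 : N4 ≤ n ^ 2 :=
    le_trans (le_trans (le_trans (le_max_right _ _) (le_max_right _ _)) hn) hnn2
  have hD' := hD (n ^ 2) hN2 hN1
  have hC' := hC (n ^ 2) hN3 hN1
  have hO' := hO (n ^ 2) hN4 hN1
  have hcast : ((n ^ 2 : ℕ) : ℤ) = (n : ℤ) ^ 2 := by push_cast; rfl
  have hcastR : ((n ^ 2 : ℕ) : ℝ) = (n : ℝ) ^ 2 := by push_cast; rfl
  rw [hcast, hcastR] at hD' hO'
  rw [hcast] at hC'
  set W : V := osc ν p ((n : ℤ) ^ 2) with hW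
  -- supports
  have hWfs : Fs ((n : ℝ) ^ 2 + M) W := by
    intro j k hk
    rw [hW]
    unfold osc
    refine Finset.sum_eq_zero fun i _ => ?_
    refine hsh M (car ((n : ℤ) ^ 2) i) (pro ν p i) hM (hpro M ν p hM hp i) j k ?_
    rw [rsb_car]
    have e : √((((n : ℤ) ^ 2 : ℤ) : ℝ) ^ 2) = (n : ℝ) ^ 2 := by
      rw [Real.sqrt_sq]
      · push_cast
        rfl
      · push_cast
        positivity
    rw [e]
    exact hk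
  have hn20 : (0 : ℝ) ≤ (n : ℝ) ^ 2 := by positivity
  have hL0 : 0 ≤ (n : ℝ) ^ 2 + M := by linarith
  have hpL : Fs ((n : ℝ) ^ 2 + M) p := hmono M _ p hM (by linarith) hp
  have hFsc : ∀ (L : ℝ) (c : ℂ) (u : V), Fs L u → Fs L (fun j k => c * u j k) :=
    fun L c u h => rsb_fs_scal L (fun _ => c) u h
  set α : ℂ := ((θ ^ 2 : ℝ) : ℂ) with hα
  set β : ℂ := (((n : ℝ) ^ 3 * θ : ℝ) : ℂ) with hβ
  set u1 : V := fun j k => α * p j k with hu1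
  set u2 : V := fun j k => β * W j k with hu2
  have hMp : Mem 2 p := hMem _ 2 p hp
  have hMW : Mem 2 W := hMem _ 2 W hWfs
  have hM1 : Mem 2 u1 := hMem _ 2 u1 (hFsc _ α p hp)
  have hM2 : Mem 2 u2 := hMem _ 2 u2 (hFsc _ β W hWfs)
  have hA : apx ν p n θ = u1 + u2 := rfl
  have hMA : Mem 2 (u1 + u2) := by
    apply hMem ((n : ℝ) ^ 2 + M)
    exact (hadd _ _ _ (hFsc _ α p hpL) (hFsc _ β W hWfs)).1
  -- bilinear expansion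
  have hexp : adv (u1 + u2) (u1 + u2) = fun j k =>
      α * (α * adv p p j k + β * adv p W j k) + β * (α * adv W p j k + β * adv W W j k) := by
    have e1 := (h1 u1 u2 (u1 + u2) hM1 hM2 hMA).1
    have e2 := (h1 p p (u1 + u2) hMp hMp hMA).2.2.1 α
    have e3 := (h1 W W (u1 + u2) hMW hMW hMA).2.2.1 β
    have e4 := (h1 u1 u2 p hM1 hM2 hMp).2.1
    have e5 := (h1 u1 u2 W hM1 hM2 hMW).2.1
    have e6 := (h1 p p p hMp hMp hMp).2.2.2 α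
    have e7 := (h1 W W p hMW hMW hMp).2.2.2 β
    have e8 := (h1 p p W hMp hMp hMW).2.2.2 α
    have e9 := (h1 W W W hMW hMW hMW).2.2.2 β
    rw [e1]
    change adv (fun j k => α * p j k) (u1 + u2) + adv (fun j k => β * W j k) (u1 + u2) = _
    rw [e2, e3, e4, e5]
    change (fun j k => α * (adv p (fun j k => α * p j k) + adv p (fun j k => β * W j k)) j k) +
      (fun j k => β * (adv W (fun j k => α * p j k) + adv W (fun j k => β * W j k)) j k) = _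
    rw [e6, e7, e8, e9]
    rfl
  -- the five terms
  set DW : V := fun j k => ((sq k ^ 2 - ((n : ℝ) ^ 2) ^ 4 : ℝ) : ℂ) * W j k with hDW
  set OW : V := fun j k => adv W W j k - ((2 * ν * ((n : ℝ) ^ 2) : ℝ) : ℂ) * p j k with hOW
  set CW : V := adv p W + adv W p with hCW
  have key : frc ν p n θ + adv (apx ν p n θ) (apx ν p n θ) =
      (fun j k => ((ν * θ ^ 2 : ℝ) : ℂ) * P2 j k) +
      ((fun j k => ((ν * ((n : ℝ) ^ 3 * θ) : ℝ) : ℂ) * DW j k) +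
      ((fun j k => ((θ ^ 4 : ℝ) : ℂ) * adv p p j k) +
      ((fun j k => (((n : ℝ) ^ 3 * θ ^ 3 : ℝ) : ℂ) * CW j k) +
      (fun j k => (((n : ℝ) ^ 6 * θ ^ 2 : ℝ) : ℂ) * OW j k)))) := by
    rw [hA, hexp]
    funext j k
    change ((ν * (sq k ^ 2 - 2 * (n : ℝ) ^ 8) * θ ^ 2 : ℝ) : ℂ) * p j k +
      ((ν * (sq k ^ 2 - (n : ℝ) ^ 8) * ((n : ℝ) ^ 3 * θ) : ℝ) : ℂ) * W j k +
      (α * (α * adv p p j k + β * adv p W j k) + β * (α * adv W p j k + β * adv W W j k)) =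
      ((ν * θ ^ 2 : ℝ) : ℂ) * (((sq k ^ 2 : ℝ) : ℂ) * p j k) +
      (((ν * ((n : ℝ) ^ 3 * θ) : ℝ) : ℂ) * (((sq k ^ 2 - ((n : ℝ) ^ 2) ^ 4 : ℝ) : ℂ) * W j k) +
      (((θ ^ 4 : ℝ) : ℂ) * adv p p j k +
      ((((n : ℝ) ^ 3 * θ ^ 3 : ℝ) : ℂ) * (adv p W j k + adv W p j k) +
      (((n : ℝ) ^ 6 * θ ^ 2 : ℝ) : ℂ) *
        (adv W W j k - ((2 * ν * ((n : ℝ) ^ 2) : ℝ) : ℂ) * p j k))))
    rw [hα, hβ]
    push_cast
    ring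
  have hFadv : ∀ g h : V, Fs ((n : ℝ) ^ 2 + M) g → Fs ((n : ℝ) ^ 2 + M) h →
      Fs ((n : ℝ) ^ 2 + M + ((n : ℝ) ^ 2 + M)) (adv g h) :=
    fun g h hg hh => (hadv _ _ g h hL0 hL0 hg hh).1
  have hF1 : Mem (-1) (fun j k => ((ν * θ ^ 2 : ℝ) : ℂ) * P2 j k) :=
    hMem _ _ _ (hFsc _ _ _ (rsb_fs_scal _ (fun k => ((sq k ^ 2 : ℝ) : ℂ)) p hp))
  have hF2 : Mem (-1) (fun j k => ((ν * ((n : ℝ) ^ 3 * θ) : ℝ) : ℂ) * DW j k) :=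
    hMem _ _ _ (hFsc _ _ _
      (rsb_fs_scal _ (fun k => ((sq k ^ 2 - ((n : ℝ) ^ 2) ^ 4 : ℝ) : ℂ)) W hWfs))
  have hF3 : Mem (-1) (fun j k => ((θ ^ 4 : ℝ) : ℂ) * adv p p j k) :=
    hMem _ _ _ (hFsc _ _ _ (hFadv p p hpL hpL))
  have hF4 : Mem (-1) (fun j k => (((n : ℝ) ^ 3 * θ ^ 3 : ℝ) : ℂ) * CW j k) :=
    hMem _ _ _ (hFsc _ _ _ (hadd _ _ _ (hFadv p W hpL hWfs) (hFadv W p hWfs hpL)).1)
  have hpL2 : Fs ((n : ℝ) ^ 2 + M + ((n : ℝ) ^ 2 + M)) p :=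
    hmono M _ p hM (by linarith) hp
  have hF5 : Mem (-1) (fun j k => (((n : ℝ) ^ 6 * θ ^ 2 : ℝ) : ℂ) * OW j k) := by
    refine hMem ((n : ℝ) ^ 2 + M + ((n : ℝ) ^ 2 + M)) _ _ (hFsc _ _ _ ?_)
    exact (hadd _ _ _ (hFadv W W hWfs hWfs) (hFsc _ ((2 * ν * ((n : ℝ) ^ 2) : ℝ) : ℂ) p hpL2)).2
  have s45 := hsum (-1) _ _ hF4 hF5
  have s345 := hsum (-1) _ _ hF3 s45.2.1
  have s2345 := hsum (-1) _ _ hF2 s345.2.1
  have s12345 := hsum (-1) _ _ hF1 s2345.2.1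
  have b45 := s45.2.2.2
  have b345 := s345.2.2.2
  have b2345 := s2345.2.2.2
  have b12345 := s12345.2.2.2
  rw [← key] at b12345
  rw [rsb_scal, rsb_scal] at b45
  rw [rsb_scal] at b345 b2345 b12345
  rw [Complex.norm_real, Complex.norm_real, Real.norm_eq_abs, Real.norm_eq_abs, sq_abs,
    sq_abs] at b45
  rw [Complex.norm_real, Real.norm_eq_abs, sq_abs] at b345 b2345 b12345
  have hpow : ∀ a b : ℕ, a ≤ 14 → 2 ≤ b → (n : ℝ) ^ a * θ ^ b ≤ (n : ℝ) ^ 14 * θ ^ 2 :=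
    fun a b ha hb => mul_le_mul (pow_le_pow_right₀ hx ha) (pow_le_pow_of_le_one hθ0 hθ1 hb)
      (by positivity) (by positivity)
  have t1 : (ν * θ ^ 2) ^ 2 * K1 ≤ ν ^ 2 * K1 * ((n : ℝ) ^ 14 * θ ^ 2) := by
    have := mul_le_mul_of_nonneg_left (hpow 0 4 (by norm_num) (by norm_num))
      (mul_nonneg (sq_nonneg ν) hK1)
    calc (ν * θ ^ 2) ^ 2 * K1 = ν ^ 2 * K1 * ((n : ℝ) ^ 0 * θ ^ 4) := by ring
      _ ≤ _ := this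
  have t2 : (ν * ((n : ℝ) ^ 3 * θ)) ^ 2 * nsq (-1) DW ≤
      ν ^ 2 * K2 * ((n : ℝ) ^ 14 * θ ^ 2) := by
    calc (ν * ((n : ℝ) ^ 3 * θ)) ^ 2 * nsq (-1) DW ≤
        (ν * ((n : ℝ) ^ 3 * θ)) ^ 2 * (K2 * ((n : ℝ) ^ 2) ^ 4) :=
          mul_le_mul_of_nonneg_left hD' (sq_nonneg _)
      _ = _ := by ring
  have t3 : (θ ^ 4) ^ 2 * K0 ≤ K0 * ((n : ℝ) ^ 14 * θ ^ 2) := by
    have := mul_le_mul_of_nonneg_left (hpow 0 8 (by norm_num) (by norm_num)) hK0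
    calc (θ ^ 4) ^ 2 * K0 = K0 * ((n : ℝ) ^ 0 * θ ^ 8) := by ring
      _ ≤ _ := this
  have t4 : ((n : ℝ) ^ 3 * θ ^ 3) ^ 2 * nsq (-1) CW ≤ K3 * ((n : ℝ) ^ 14 * θ ^ 2) := by
    have := mul_le_mul_of_nonneg_left (hpow 6 6 (by norm_num) (by norm_num)) hK3
    calc ((n : ℝ) ^ 3 * θ ^ 3) ^ 2 * nsq (-1) CW ≤ ((n : ℝ) ^ 3 * θ ^ 3) ^ 2 * K3 :=
          mul_le_mul_of_nonneg_left hC' (sq_nonneg _)
      _ = K3 * ((n : ℝ) ^ 6 * θ ^ 6) := by ring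
      _ ≤ _ := this
  have t5 : ((n : ℝ) ^ 6 * θ ^ 2) ^ 2 * nsq (-1) OW ≤ K4 * ((n : ℝ) ^ 14 * θ ^ 2) := by
    have := mul_le_mul_of_nonneg_left (hpow 12 4 (by norm_num) (by norm_num)) hK4
    calc ((n : ℝ) ^ 6 * θ ^ 2) ^ 2 * nsq (-1) OW ≤ ((n : ℝ) ^ 6 * θ ^ 2) ^ 2 * K4 :=
          mul_le_mul_of_nonneg_left hO' (sq_nonneg _)
      _ = K4 * ((n : ℝ) ^ 12 * θ ^ 4) := by ring
      _ ≤ _ := this
  have hT0 : 0 ≤ 16 * (ν ^ 2 * K1 + ν ^ 2 * K2 + K0 + K3 + K4) := by positivity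
  have hfinal : (√(16 * (ν ^ 2 * K1 + ν ^ 2 * K2 + K0 + K3 + K4)) * (n : ℝ) ^ 7 * θ) ^ 2 =
      16 * (ν ^ 2 * K1 + ν ^ 2 * K2 + K0 + K3 + K4) * ((n : ℝ) ^ 14 * θ ^ 2) := by
    rw [mul_pow, mul_pow, Real.sq_sqrt hT0]
    ring
  rw [hfinal]
  have q1 : 0 ≤ ν ^ 2 * K1 * ((n : ℝ) ^ 14 * θ ^ 2) := by positivity
  have q2 : 0 ≤ ν ^ 2 * K2 * ((n : ℝ) ^ 14 * θ ^ 2) := by positivity
  have q3 : 0 ≤ K0 * ((n : ℝ) ^ 14 * θ ^ 2) := by positivity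
  have q4 : 0 ≤ K3 * ((n : ℝ) ^ 14 * θ ^ 2) := by positivity
  have q5 : 0 ≤ K4 * ((n : ℝ) ^ 14 * θ ^ 2) := by positivity
  have hK1e : nsq (-1) P2 = K1 := rfl
  have hK0e : nsq (-1) (adv p p) = K0 := rfl
  nlinarith

end HB
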